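import Pool.Agent.helper69.SN.SpecB
import Pool.Agent.helper26.SC.LU
import Pool.Agent.helper53.SC.HS1
import Pool.Agent.helper53.SC.HS2
import Pool.Agent.helper35.SC.LA2
import Pool.Agent.helper59.SN.CNT

/-! Row sn:bEX: THEOREM EX. -/

open scoped Pointwise ContDiff
open MeasureTheory Set Filter Topology

set_option linter.unusedVariables false

namespace Pool.Agent.helper69.SN

open Pool.Agent.helper83.SC

/-- A continuous function of a family and a matrix is bounded on boxes. -/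
theorem bEX_bdd {m n : ℕ} (g : (Fin n → Mat m) × Mat m → ℝ) (hg : Continuous g) (c : ℝ) :
    ∃ D : ℝ, ∀ (B : Fin n → Mat m) (M : Mat m), (∀ k i j, |B k i j| ≤ c) →
      (∀ i j, |M i j| ≤ c) → |g (B, M)| ≤ D := by
  let K1 : Set (Mat m) := Set.pi univ fun i : Fin m => Set.pi univ fun j : Fin m => Icc (-c) c
  have hK1 : IsCompact K1 :=
    isCompact_univ_pi fun i => isCompact_univ_pi fun j => isCompact_Icc
  let K2 : Set (Fin n → Mat m) := Set.pi univ fun _ => K1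
  have hK2 : IsCompact K2 := isCompact_univ_pi fun _ => hK1
  obtain ⟨D, hD⟩ := (hK2.prod hK1).exists_bound_of_continuousOn hg.continuousOn
  refine ⟨D, fun B M hB hM => ?_⟩
  have h1 : M ∈ K1 := fun i _ j _ => abs_le.mp (hM i j)
  have h2 : B ∈ K2 := fun k _ i _ j _ => abs_le.mp (hB k i j)
  have h3 := hD (B, M) ⟨h2, h1⟩
  rwa [Real.norm_eq_abs] at h3

/-- The entries of a continuous family are bounded on compact sets. -/
theorem bEX_ent {m n : ℕ} (B : E m → Fin n → Mat m) (hB : ∀ i, Continuous fun x => B x i)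
    (Z : Set (E m)) (hZ : IsCompact Z) : ∃ c : ℝ, 0 ≤ c ∧ ∀ x ∈ Z, ∀ k i j, |B x k i j| ≤ c := by
  have hc : Continuous (fun x : E m => ∑ k, ∑ i, ∑ j, |B x k i j|) := by
    refine continuous_finsetSum _ fun k _ => continuous_finsetSum _ fun i _ =>
      continuous_finsetSum _ fun j _ => ?_
    exact ((hB k).matrix_elem i j).abs
  obtain ⟨D, hD⟩ := hZ.exists_bound_of_continuousOn hc.continuousOn
  refine ⟨|D|, abs_nonneg _, fun x hx k i j => ?_⟩
  have h1 := hD x hx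
  have h2 : |B x k i j| ≤ ∑ k, ∑ i, ∑ j, |B x k i j| := by
    have e1 : |B x k i j| ≤ ∑ j, |B x k i j| :=
      Finset.single_le_sum (f := fun j => |B x k i j|) (fun _ _ => abs_nonneg _)
        (Finset.mem_univ j)
    have e2 : ∑ j, |B x k i j| ≤ ∑ i, ∑ j, |B x k i j| :=
      Finset.single_le_sum (f := fun i => ∑ j, |B x k i j|)
        (fun _ _ => Finset.sum_nonneg fun _ _ => abs_nonneg _) (Finset.mem_univ i)
    have e3 : ∑ i, ∑ j, |B x k i j| ≤ ∑ k, ∑ i, ∑ j, |B x k i j| :=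
      Finset.single_le_sum (f := fun k => ∑ i, ∑ j, |B x k i j|)
        (fun _ _ => Finset.sum_nonneg fun _ _ => Finset.sum_nonneg fun _ _ => abs_nonneg _)
        (Finset.mem_univ k)
    exact e1.trans (e2.trans e3)
  rw [Real.norm_eq_abs] at h1
  exact h2.trans ((le_abs_self _).trans (h1.trans (le_abs_self _)))

/-- Symmetric matrices with bounded entries are bounded by multiples of the identity. -/
theorem bEX_le {m : ℕ} (M : Mat m) (hM : M.IsHermitian) (c : ℝ) (hc : 0 ≤ c)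
    (h : ∀ i j, |M i j| ≤ c) : ((c * m) • (1 : Mat m) - M).PosSemidef := by
  refine Matrix.PosSemidef.of_dotProduct_mulVec_nonneg ?_ ?_
  · refine Matrix.IsHermitian.sub ?_ hM
    exact Matrix.isHermitian_one.smul (by simp [IsSelfAdjoint])
  · intro x
    have e1 : star x = x := by
      funext i
      simp
    rw [e1, Matrix.sub_mulVec, Matrix.smul_mulVec, Matrix.one_mulVec, dotProduct_sub,
      dotProduct_smul]
    have h1 : x ⬝ᵥ (M.mulVec x) ≤ c * (∑ i, |x i|) ^ 2 := by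
      have h2 : x ⬝ᵥ (M.mulVec x) = ∑ i, ∑ j, x i * (M i j * x j) := by
        simp only [dotProduct, Matrix.mulVec, Finset.mul_sum]
      have h3 : c * (∑ i, |x i|) ^ 2 = ∑ i, ∑ j, c * (|x i| * |x j|) := by
        rw [sq, Finset.sum_mul_sum, Finset.mul_sum]
        refine Finset.sum_congr rfl fun i _ => ?_
        rw [Finset.mul_sum]
      rw [h2, h3]
      refine Finset.sum_le_sum fun i _ => Finset.sum_le_sum fun j _ => ?_
      have h4 : x i * (M i j * x j) ≤ |x i * (M i j * x j)| := le_abs_self _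
      rw [abs_mul, abs_mul] at h4
      have h5 : |x i| * (|M i j| * |x j|) ≤ c * (|x i| * |x j|) := by
        have h6 := h i j
        have h7 : |M i j| * (|x i| * |x j|) ≤ c * (|x i| * |x j|) :=
          mul_le_mul_of_nonneg_right h6 (mul_nonneg (abs_nonneg _) (abs_nonneg _))
        calc |x i| * (|M i j| * |x j|) = |M i j| * (|x i| * |x j|) := by ring
          _ ≤ _ := h7
      exact h4.trans h5
    have h8 : (∑ i, |x i|) ^ 2 ≤ m * ∑ i, |x i| ^ 2 := by
      have := sq_sum_le_card_mul_sum_sq (s := (Finset.univ : Finset (Fin m))) (f := fun i => |x i|)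
      simpa using this
    have h9 : x ⬝ᵥ x = ∑ i, |x i| ^ 2 := by
      simp only [dotProduct, sq_abs]
      refine Finset.sum_congr rfl fun i _ => ?_
      ring
    rw [h9, smul_eq_mul]
    have h10 : c * (∑ i, |x i|) ^ 2 ≤ c * (m * ∑ i, |x i| ^ 2) := mul_le_mul_of_nonneg_left h8 hc
    nlinarith [h1, h10]

/-- A function with gradients bounded by `L` on a ball is `L`-Lipschitz there. -/
theorem bEX_lip {m : ℕ} (k : E m → ℝ) (G : E m → E m) (R L : ℝ)
    (hG : ∀ x, HasGradientAt k (G x) x) (hb : ∀ x, ‖x‖ ≤ R → ‖G x‖ ≤ L) :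
    ∀ x y, ‖x‖ ≤ R → ‖y‖ ≤ R → |k x - k y| ≤ L * ‖x - y‖ := by
  intro x y hx hy
  have h1 : ∀ z ∈ Metric.closedBall (0 : E m) R,
      HasFDerivWithinAt k ((InnerProductSpace.toDual ℝ (E m)) (G z)) (Metric.closedBall (0 : E m) R) z :=
    fun z _ => (hG z).hasFDerivAt.hasFDerivWithinAt
  have h2 : ∀ z ∈ Metric.closedBall (0 : E m) R,
      ‖(InnerProductSpace.toDual ℝ (E m)) (G z)‖ ≤ L := by
    intro z hz
    rw [LinearIsometryEquiv.norm_map]
    exact hb z (by simpa using hz)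
  have h3 := (convex_closedBall (0 : E m) R).norm_image_sub_le_of_norm_hasFDerivWithin_le h1 h2
    (by simpa using hy : y ∈ Metric.closedBall (0 : E m) R) (by simpa using hx)
  rwa [Real.norm_eq_abs] at h3

/-- The square of the norm is convex. -/
theorem bEX_sq {m : ℕ} (c : ℝ) (hc : 0 ≤ c) : SmC (fun y : E m => c * ‖y‖ ^ 2 / 2) := by
  constructor
  · exact (contDiff_const.mul (contDiff_norm_sq ℝ)).div_const 2
  · have h1 : ConvexOn ℝ univ (fun y : E m => ‖y‖ ^ 2) :=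
      (convexOn_norm convex_univ).pow (fun x _ => norm_nonneg x) 2
    have h2 := h1.smul (c := c / 2) (by positivity)
    have h3 : (fun y : E m => c * ‖y‖ ^ 2 / 2) = fun y : E m => (c / 2) • ‖y‖ ^ 2 := by
      funext y
      rw [smul_eq_mul]
      ring
    unfold CV
    rw [h3]
    exact h2

/-- Continuity of the weight function of the mass. -/
theorem bEX_mass (m : ℕ) :
    Continuous (fun M : Mat m => mD (fun j : Fin m => if (j : ℕ) = 0 then (1 : Mat m) else M + 1)) := by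
  refine (aCNT_mD m).comp (continuous_pi fun j => ?_ :
    Continuous fun (M : Mat m) (j : Fin m) => if (j : ℕ) = 0 then (1 : Mat m) else M + 1)
  by_cases h : (j : ℕ) = 0
  · simp only [h, if_true]
    exact continuous_const
  · simp only [h, if_false]
    exact (continuous_id (X := Mat m)).add continuous_const

/-- The mass integral of the limit: closeness of the entries is enough. -/
theorem bEX_lim {m n : ℕ} (B : E m → Fin n → Mat m) (Z : Set (E m)) (hZ : IsCompact Z)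
    (g : (Fin n → Mat m) × Mat m → ℝ) (hg : Continuous g) (c : ℝ)
    (hBc : Continuous fun x => B x)
    (hB : ∀ x ∈ Z, ∀ k i j, |B x k i j| ≤ c) (X : ℕ → E m → Mat m) (Y : E m → Mat m)
    (hXc : ∀ j, Continuous (X j)) (hX : ∀ j, ∀ x ∈ Z, ∀ a b, |X j x a b| ≤ c)
    (hlim : ∀ᵐ x, Tendsto (fun j => X j x) atTop (𝓝 (Y x))) :
    Tendsto (fun j => ∫ x in Z, g (B x, X j x)) atTop (𝓝 (∫ x in Z, g (B x, Y x))) ∧
      IntegrableOn (fun x => g (B x, Y x)) Z := by
  obtain ⟨D, hD⟩ := bEX_bdd g hg c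
  have hZm : MeasurableSet Z := hZ.isClosed.measurableSet
  have hfin : volume Z < ⊤ := hZ.measure_lt_top
  have : IsFiniteMeasure (volume.restrict Z) := ⟨by rwa [Measure.restrict_apply_univ]⟩
  have hmeas : ∀ j, AEStronglyMeasurable (fun x => g (B x, X j x)) (volume.restrict Z) := by
    intro j
    exact (hg.comp (hBc.prodMk (hXc j))).aestronglyMeasurable
  have hbd : ∀ j, ∀ᵐ x ∂(volume.restrict Z), ‖g (B x, X j x)‖ ≤ D := by
    intro j
    rw [ae_restrict_iff' hZm]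
    refine Eventually.of_forall fun x hx => ?_
    rw [Real.norm_eq_abs]
    exact hD (B x) (X j x) (hB x hx) (hX j x hx)
  have hli : ∀ᵐ x ∂(volume.restrict Z),
      Tendsto (fun j => g (B x, X j x)) atTop (𝓝 (g (B x, Y x))) := by
    refine ae_restrict_of_ae ?_
    filter_upwards [hlim] with x hx
    exact (hg.tendsto (B x, Y x)).comp (tendsto_const_nhds.prodMk_nhds hx)
  refine ⟨tendsto_integral_of_dominated_convergence (fun _ => D) hmeas (integrable_const D) hbd hli,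
    ?_⟩
  have hm2 : AEStronglyMeasurable (fun x => g (B x, Y x)) (volume.restrict Z) :=
    aestronglyMeasurable_of_tendsto_ae atTop hmeas hli
  refine Integrable.mono' (integrable_const D) hm2 ?_
  filter_upwards [hli, ae_all_iff.mpr hbd] with x h1 h2
  exact le_of_tendsto h1.norm (Eventually.of_forall h2)

/-- A sequence of bump functions with supports shrinking to a point. -/
theorem bEX_bump (m : ℕ) : ∃ φ : ℕ → ContDiffBump (0 : E m),
    Tendsto (fun j => (φ j).rOut) atTop (𝓝 0) ∧ (∀ j, (φ j).rOut = 2 * (φ j).rIn) ∧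
      ∀ j, (φ j).rOut ≤ 1 := by
  have hp : ∀ j : ℕ, (0 : ℝ) < 1 / ((j : ℝ) + 1) := fun j => Nat.one_div_pos_of_nat
  refine ⟨fun j => ⟨1 / ((j : ℝ) + 1) / 2, 1 / ((j : ℝ) + 1), half_pos (hp j),
    half_lt_self (hp j)⟩, ?_, ?_, ?_⟩
  · exact tendsto_one_div_add_atTop_nhds_zero_nat
  · intro j
    show 1 / ((j : ℝ) + 1) = 2 * (1 / ((j : ℝ) + 1) / 2)
    ring
  · intro j
    show 1 / ((j : ℝ) + 1) ≤ 1
    rw [div_le_one (by positivity)]
    have : (0 : ℝ) ≤ j := Nat.cast_nonneg j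
    linarith

/-- THEOREM EX. -/
theorem bEX_of (hPER : bPER_stmt) (hCLS : bCLS_stmt) (hPRX : xPRX_stmt) (hLOC : xLOC_stmt)
    (hMOA : mMOA_stmt) (hRAD : mRAD_stmt) (hMLC : xMLC_stmt) (hBDR : xBDR_stmt) (hMAS : xMAS_stmt)
    (hSML : aSML_stmt) (hCL2 : aCL2_stmt) : bEX_stmt := by
  intro m n hm B hPsd hBc U κ₀ hU hUb hκ₀ Z hZ hZU R ε hε
  obtain ⟨hcls, -, -, -⟩ := hPER hm B hPsd U κ₀ hUb hκ₀
  obtain ⟨hCV, hcont⟩ := (hCLS B hPsd).2.1 (per B U κ₀) hcls
  generalize hκ : per B U κ₀ = κ at hcls hCV hcont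
  have hZm : MeasurableSet Z := hZ.isClosed.measurableSet
  -- the radius
  obtain ⟨R₀, hR₀⟩ := hZ.isBounded.exists_norm_le
  obtain ⟨R₁, hR₁, hR₁R, hR₁0⟩ : ∃ R₁ : ℝ, R₀ ≤ R₁ ∧ R ≤ R₁ ∧ 0 ≤ R₁ :=
    ⟨max (max R₀ R) 0, (le_max_left _ _).trans (le_max_left _ _),
      (le_max_right _ _).trans (le_max_left _ _), le_max_right _ _⟩
  -- the Lipschitz constant
  obtain ⟨L, hL0, hL⟩ : ∃ L : ℝ, 0 ≤ L ∧ ∀ x y, ‖x‖ ≤ R₁ + 3 → ‖y‖ ≤ R₁ + 3 →
      |κ x - κ y| ≤ L * ‖x - y‖ := by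
    obtain ⟨L₀, hL₀⟩ := loc_lip_of loc_bdd_of (g := fun _ => κ) (f := κ) (fun _ => hCV)
      (fun x => tendsto_const_nhds) (R₁ + 3)
    refine ⟨|L₀|, abs_nonneg _, fun x y hx hy => ?_⟩
    exact (hL₀ 0 x y hx hy).trans (mul_le_mul_of_nonneg_right (le_abs_self _) (norm_nonneg _))
  -- bounds of the family
  obtain ⟨c, hc0, hc⟩ := bEX_ent B hBc Z hZ
  have hLe : ∀ x ∈ Z, Le (B x) (c * m) := fun x hx i =>
    bEX_le (B x i) (hPsd x i).isHermitian c hc0 (hc x hx i)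
  obtain ⟨C₁, hC₁0, hC₁⟩ := hSML (m := m) (n := n) (c * m) (mul_nonneg hc0 (Nat.cast_nonneg m))
  obtain ⟨C₂, hC₂⟩ := hMAS (m := m) R₁ (2 * L)
  -- the constant δ
  obtain ⟨CM, hCM0, hCM⟩ : ∃ CM : ℝ, 0 ≤ CM ∧ C₂ ≤ CM := ⟨max C₂ 0, le_max_right _ _, le_max_left _ _⟩
  obtain ⟨δ, hδ, hδ1, hδ2, hδ3⟩ : ∃ δ : ℝ, 0 < δ ∧ 2 * δ ≤ 1 ∧ δ * R₁ ^ 2 ≤ ε / 4 ∧
      3 * δ * C₁ * CM ≤ ε / 2 := by
    have p1 : 0 < 4 * (R₁ ^ 2 + 1) := by positivity
    have p2 : 0 < 2 * (3 * C₁ * CM + 1) := by positivity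
    refine ⟨min (1 / 2) (min (ε / (4 * (R₁ ^ 2 + 1))) (ε / (2 * (3 * C₁ * CM + 1)))), ?_, ?_, ?_, ?_⟩
    · exact lt_min (by norm_num) (lt_min (div_pos hε p1) (div_pos hε p2))
    · have := min_le_left (1 / 2 : ℝ) (min (ε / (4 * (R₁ ^ 2 + 1))) (ε / (2 * (3 * C₁ * CM + 1))))
      linarith
    · have h1 : min (1 / 2 : ℝ) (min (ε / (4 * (R₁ ^ 2 + 1))) (ε / (2 * (3 * C₁ * CM + 1))))
          ≤ ε / (4 * (R₁ ^ 2 + 1)) := (min_le_right _ _).trans (min_le_left _ _)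
      refine (mul_le_mul_of_nonneg_right h1 (sq_nonneg R₁)).trans ?_
      rw [div_mul_eq_mul_div, div_le_iff₀ p1]
      nlinarith [sq_nonneg R₁]
    · have h1 : min (1 / 2 : ℝ) (min (ε / (4 * (R₁ ^ 2 + 1))) (ε / (2 * (3 * C₁ * CM + 1))))
          ≤ ε / (2 * (3 * C₁ * CM + 1)) := (min_le_right _ _).trans (min_le_right _ _)
      have h2 : 0 ≤ 3 * C₁ * CM := by positivity
      have h3 := mul_le_mul_of_nonneg_right h1 h2
      have h4 : ε / (2 * (3 * C₁ * CM + 1)) * (3 * C₁ * CM) ≤ ε / 2 := by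
        rw [div_mul_eq_mul_div, div_le_iff₀ p2]
        nlinarith
      calc 3 * (min (1 / 2 : ℝ) (min (ε / (4 * (R₁ ^ 2 + 1))) (ε / (2 * (3 * C₁ * CM + 1))))) * C₁ * CM
          = (min (1 / 2 : ℝ) (min (ε / (4 * (R₁ ^ 2 + 1))) (ε / (2 * (3 * C₁ * CM + 1)))))
            * (3 * C₁ * CM) := by ring
        _ ≤ _ := h3
        _ ≤ _ := h4
  -- the parameter of the envelope
  obtain ⟨e₁, ρ, he₁, hρ, hMLC'⟩ := hMLC B hPsd hBc κ hcls R₁ δ hδ
  obtain ⟨e₂, he₂, hBDR'⟩ := hBDR hm B hPsd hBc U κ₀ hU hUb hκ₀ Z hZ hZU δ hδ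
  rw [hκ] at hBDR'
  obtain ⟨a, ha, hae₁, hae₂, haL⟩ : ∃ a : ℝ, 0 < a ∧ a ≤ e₁ ∧ a ≤ e₂ ∧ 2 * a * L ^ 2 ≤ ε / 4 := by
    have p1 : 0 < 8 * (L ^ 2 + 1) := by positivity
    refine ⟨min e₁ (min e₂ (ε / (8 * (L ^ 2 + 1)))), ?_, min_le_left _ _,
      (min_le_right _ _).trans (min_le_left _ _), ?_⟩
    · exact lt_min he₁ (lt_min he₂ (div_pos hε p1))
    · have h1 : min e₁ (min e₂ (ε / (8 * (L ^ 2 + 1)))) ≤ ε / (8 * (L ^ 2 + 1)) :=
        (min_le_right _ _).trans (min_le_right _ _)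
      have h2 : ε / (8 * (L ^ 2 + 1)) * (2 * L ^ 2) ≤ ε / 4 := by
        rw [div_mul_eq_mul_div, div_le_iff₀ p1]
        nlinarith [sq_nonneg L]
      have h3 := mul_le_mul_of_nonneg_right h1 (by positivity : (0 : ℝ) ≤ 2 * L ^ 2)
      calc 2 * (min e₁ (min e₂ (ε / (8 * (L ^ 2 + 1))))) * L ^ 2
          = (min e₁ (min e₂ (ε / (8 * (L ^ 2 + 1))))) * (2 * L ^ 2) := by ring
        _ ≤ _ := h3
        _ ≤ _ := h2
  obtain ⟨P, hPx, hmor, hne, hne2, hgrad, hCVk, hmle, -⟩ := hPRX κ a hCV ha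
  have hloc := hLOC κ a (R₁ + 2) L P hCV ha hL0 hPx hmor
    (fun x y hx hy => hL x y (by linarith) (by linarith))
  generalize hk : mor κ a = k at hgrad hCVk hmle hloc
  have hkc : Continuous k := by
    have : Differentiable ℝ k := fun x => (hgrad x).differentiableAt
    exact this.continuous
  have hklip : ∀ x y, ‖x‖ ≤ R₁ + 2 → ‖y‖ ≤ R₁ + 2 → |k x - k y| ≤ 2 * L * ‖x - y‖ := by
    refine bEX_lip k (fun x => a⁻¹ • (x - P x)) (R₁ + 2) (2 * L) hgrad fun x hx => ?_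
    rw [norm_smul, norm_inv, Real.norm_eq_abs, abs_of_pos ha]
    have h1 := (hloc x hx).1
    have h2 : a⁻¹ * ‖x - P x‖ ≤ a⁻¹ * (2 * a * L) :=
      mul_le_mul_of_nonneg_left h1 (inv_nonneg.mpr ha.le)
    refine h2.trans (le_of_eq ?_)
    field_simp
  -- mollification
  obtain ⟨φ, hφ0, hφ2, hφ1⟩ := bEX_bump m
  obtain ⟨M, hM, C₃, hC₃⟩ := hRAD k (fun x => a⁻¹ • (x - P x)) a⁻¹ (inv_nonneg.mpr ha.le) hCVk hgrad
    (fun x y => by
      have e1 : a⁻¹ • (x - P x) - a⁻¹ • (y - P y) = a⁻¹ • ((x - P x) - (y - P y)) :=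
        (smul_sub _ _ _).symm
      rw [e1, norm_smul, norm_inv, Real.norm_eq_abs, abs_of_pos ha]
      exact mul_le_mul_of_nonneg_left (hne2 x y) (inv_nonneg.mpr ha.le)) φ hφ0 hφ2
  have hf : ∀ j, SmC (mol (φ j) k) := fun j =>
    ⟨(hMOA (φ j) k hkc).1, (hMOA (φ j) k hkc).2.1 hCVk⟩
  have hflip : ∀ j x y, ‖x‖ ≤ R₁ + 1 → ‖y‖ ≤ R₁ + 1 →
      |mol (φ j) k x - mol (φ j) k y| ≤ 2 * L * ‖x - y‖ := fun j =>
    (hMOA (φ j) k hkc).2.2.2 (R₁ + 1) (2 * L) fun x y hx hy =>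
      hklip x y (by linarith [hφ1 j]) (by linarith [hφ1 j])
  have hq := bEX_sq (m := m) (2 * δ) (by linarith)
  have hhess : ∀ j x, hess (fun y => mol (φ j) k y + 2 * δ * ‖y‖ ^ 2 / 2) x
      = hess (mol (φ j) k) x + (2 * δ) • (1 : Mat m) := by
    intro j x
    rw [hess_add_of (hf j).1 hq.1 x, hess_normSq_of (2 * δ) x]
  have hBcc : Continuous fun x => B x := continuous_pi hBc
  have hScont : Continuous fun x => ∑ i, B x i := continuous_finsetSum _ fun i _ => hBc i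
  -- bounds of the entries
  obtain ⟨c', hc'1, hc'2, hc'3⟩ : ∃ c' : ℝ, (∀ x ∈ Z, ∀ k i j, |B x k i j| ≤ c') ∧
      (∀ j, ∀ x ∈ Z, ∀ u v, |(hess (mol (φ j) k) x + (2 * δ) • (1 : Mat m) - ∑ i, B x i) u v| ≤ c') ∧
      (∀ j, ∀ x ∈ Z, ∀ u v, |hess (mol (φ j) k) x u v| ≤ c') := by
    have hn0 : (0 : ℝ) ≤ n * c := mul_nonneg (Nat.cast_nonneg n) hc0
    have hC₃0 : 0 ≤ |C₃| := abs_nonneg _
    refine ⟨|C₃| + 2 * δ + n * c + c, fun x hx k i j => (hc x hx k i j).trans (by linarith), ?_, ?_⟩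
    · intro j x hx u v
      have h1 : (hess (mol (φ j) k) x + (2 * δ) • (1 : Mat m) - ∑ i, B x i) u v
          = hess (mol (φ j) k) x u v + (2 * δ) * (1 : Mat m) u v - ∑ i, B x i u v := by
        rw [Matrix.sub_apply, Matrix.add_apply, Matrix.smul_apply, Matrix.sum_apply, smul_eq_mul]
      rw [h1]
      have h2 : |hess (mol (φ j) k) x u v| ≤ |C₃| := (hC₃ j x u v).trans (le_abs_self _)
      have h3 : |(2 * δ) * (1 : Mat m) u v| ≤ 2 * δ := by
        rw [abs_mul, abs_of_pos (by linarith : (0 : ℝ) < 2 * δ)]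
        have h4 : |(1 : Mat m) u v| ≤ 1 := by
          rw [Matrix.one_apply]
          split_ifs <;> simp
        nlinarith
      have h5 : |∑ i, B x i u v| ≤ n * c := by
        refine (Finset.abs_sum_le_sum_abs _ _).trans ?_
        refine (Finset.sum_le_sum fun i _ => hc x hx i u v).trans ?_
        simp
      have h6 : |hess (mol (φ j) k) x u v + (2 * δ) * (1 : Mat m) u v - ∑ i, B x i u v|
          ≤ |hess (mol (φ j) k) x u v| + |(2 * δ) * (1 : Mat m) u v| + |∑ i, B x i u v| :=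
        (abs_sub _ _).trans (add_le_add_left (abs_add_le _ _) _)
      linarith
    · intro j x hx u v
      have h2 : |hess (mol (φ j) k) x u v| ≤ |C₃| := (hC₃ j x u v).trans (le_abs_self _)
      linarith
  have hlim0 : ∀ᵐ x, Tendsto (fun j => hess (mol (φ j) k) x) atTop (𝓝 (M x)) := by
    filter_upwards [hM] with x hx
    exact hx.2.1
  have hlim1 : ∀ᵐ x, Tendsto (fun j => hess (mol (φ j) k) x + (2 * δ) • (1 : Mat m) - ∑ i, B x i) atTop
      (𝓝 (M x + (2 * δ) • (1 : Mat m) - ∑ i, B x i)) := by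
    filter_upwards [hlim0] with x hx
    exact (hx.add_const _).sub_const _
  obtain ⟨hT1, hI1⟩ := bEX_lim B Z hZ (fun p => Ph p.1 p.2) (aCNT (m := m) (n := n) 0).2 c' hBcc
    hc'1 (fun j x => hess (mol (φ j) k) x + (2 * δ) • (1 : Mat m) - ∑ i, B x i)
    (fun x => M x + (2 * δ) • (1 : Mat m) - ∑ i, B x i)
    (fun j => ((continuous_hess_of (hf j).1).add continuous_const).sub hScont) hc'2 hlim1
  obtain ⟨hT2, hI2⟩ := bEX_lim B Z hZ
    (fun p => mD (fun j : Fin m => if (j : ℕ) = 0 then (1 : Mat m) else p.2 + 1))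
    ((bEX_mass m).comp continuous_snd) c' hBcc hc'1 (fun j x => hess (mol (φ j) k) x) M
    (fun j => continuous_hess_of (hf j).1) hc'3 hlim0
  simp only at hT1 hT2 hI1 hI2
  -- the mass
  have hmassj : ∀ j, ∫ x in Z,
      mD (fun i : Fin m => if (i : ℕ) = 0 then (1 : Mat m) else hess (mol (φ j) k) x + 1) ≤ CM := by
    intro j
    have h1 := hC₂ (mol (φ j) k) (hf j) (hflip j)
    refine le_trans ?_ (h1.trans hCM)
    refine setIntegral_mono_set ?_ ?_ ?_
    · exact (((bEX_mass m).comp (continuous_hess_of (hf j).1)).continuousOn).integrableOn_compact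
        (isCompact_closedBall (0 : E m) R₁)
    · refine Eventually.of_forall fun x => ?_
      refine mD_nonneg_of fun i => ?_
      split_ifs
      · exact Matrix.PosSemidef.one
      · exact (hess_psd_of (hf j).1 (hf j).2 x).add Matrix.PosSemidef.one
    · refine LE.le.eventuallyLE fun x hx => ?_
      simpa using (hR₀ x hx).trans hR₁
  have hmass : ∫ x in Z,
      mD (fun i : Fin m => if (i : ℕ) = 0 then (1 : Mat m) else M x + 1) ≤ CM :=
    le_of_tendsto hT2 (Eventually.of_forall hmassj)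
  -- the pointwise estimate
  have hpt : ∀ᵐ x ∂(volume.restrict Z), Ph (B x) (M x + (2 * δ) • (1 : Mat m) - ∑ i, B x i)
      ≤ 3 * δ * C₁ * mD (fun i : Fin m => if (i : ℕ) = 0 then (1 : Mat m) else M x + 1) := by
    filter_upwards [ae_restrict_of_ae hM, ae_restrict_mem hZm] with x hx hxZ
    have e1 : M x + (2 * δ) • (1 : Mat m) - ∑ i, B x i = M x - ∑ i, B x i + (2 * δ) • (1 : Mat m) := by
      abel
    rw [e1]
    have hxR : ‖x‖ ≤ R₁ := (hR₀ x hxZ).trans hR₁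
    refine hC₁ (B x) (hPsd x) (hLe x hxZ) (M x) hx.1 (2 * δ) (3 * δ) (by linarith) hδ1
      (by linarith) ?_ ?_
    · have h1 : Tendsto (fun j => ((B x, hess (mol (φ j) k) x - ∑ i, B x i + (2 * δ) • (1 : Mat m)) :
          (Fin n → Mat m) × Mat m)) atTop (𝓝 (B x, M x - ∑ i, B x i + (2 * δ) • (1 : Mat m))) :=
        tendsto_const_nhds.prodMk_nhds ((hx.2.1.sub_const _).add_const _)
      refine (hCL2 (m := m) (n := n)).mem_of_tendsto h1 ?_
      filter_upwards [hφ0.eventually_le_const hρ] with j hj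
      have h2 := hMLC' a ha hae₁ (φ j) hj x hxR
      rw [hk] at h2
      exact h2
    · have h3 := hBDR' a ha hae₂ x hxZ (a⁻¹ • (x - P x)) (M x) hx.1
      rw [hk] at h3
      have h4 := h3 (hgrad x) hx.2.2
      have e2 : M x - ∑ i, B x i + (2 * δ - 3 * δ) • (1 : Mat m)
          = M x - ∑ i, B x i - δ • (1 : Mat m) := by
        have e3 : (2 * δ - 3 * δ) = -δ := by ring
        rw [e3, neg_smul, sub_eq_add_neg (M x - ∑ i, B x i)]
      rw [e2]
      exact h4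
  have hint : ∫ x in Z, Ph (B x) (M x + (2 * δ) • (1 : Mat m) - ∑ i, B x i) ≤ ε / 2 := by
    have h1 : ∫ x in Z, Ph (B x) (M x + (2 * δ) • (1 : Mat m) - ∑ i, B x i)
        ≤ ∫ x in Z, 3 * δ * C₁ * mD (fun i : Fin m => if (i : ℕ) = 0 then (1 : Mat m) else M x + 1) :=
      integral_mono_ae hI1 (hI2.const_mul _) hpt
    rw [integral_const_mul] at h1
    have h2 : 3 * δ * C₁ * ∫ x in Z, mD (fun i : Fin m => if (i : ℕ) = 0 then (1 : Mat m) else M x + 1)
        ≤ 3 * δ * C₁ * CM := mul_le_mul_of_nonneg_left hmass (by positivity)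
    linarith
  -- the choice of the mollification
  have hev1 : ∀ᶠ j in atTop,
      ∫ x in Z, Ph (B x) (hess (mol (φ j) k) x + (2 * δ) • (1 : Mat m) - ∑ i, B x i) < ε :=
    hT1.eventually_lt_const (by linarith)
  have hev2 : ∀ᶠ j in atTop, (φ j).rOut ≤ ρ := hφ0.eventually_le_const hρ
  have hev3 : ∀ᶠ j in atTop, 2 * L * (φ j).rOut ≤ ε / 4 := by
    have : Tendsto (fun j => 2 * L * (φ j).rOut) atTop (𝓝 (2 * L * 0)) := hφ0.const_mul _
    rw [mul_zero] at this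
    exact this.eventually_le_const (by linarith)
  obtain ⟨j, hj1, hj2, hj3⟩ := (hev1.and (hev2.and hev3)).exists
  refine ⟨fun y => mol (φ j) k y + 2 * δ * ‖y‖ ^ 2 / 2, ⟨(hf j).1.add hq.1, (hf j).2.add hq.2⟩,
    ?_, ?_, ?_⟩
  · intro x hx
    show |mol (φ j) k x + 2 * δ * ‖x‖ ^ 2 / 2 - κ x| ≤ ε
    have hxR : ‖x‖ ≤ R₁ := hx.trans hR₁R
    have h1 : |mol (φ j) k x - k x| ≤ ε / 4 := by
      refine (hMOA (φ j) k hkc).2.2.1 x (ε / 4) fun t ht => ?_
      have h2 : ‖x - t‖ ≤ R₁ + 2 := (norm_sub_le _ _).trans (by linarith [hφ1 j])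
      have h3 := hklip (x - t) x h2 (by linarith)
      have h4 : ‖x - t - x‖ = ‖t‖ := by
        rw [sub_sub_cancel_left, norm_neg]
      rw [h4] at h3
      have h5 : 2 * L * ‖t‖ ≤ 2 * L * (φ j).rOut := mul_le_mul_of_nonneg_left ht (by linarith)
      linarith
    have h6 : |k x - κ x| ≤ ε / 4 := by
      have h7 := (hloc x (by linarith)).2
      have h8 := hmle x
      rw [abs_le]
      constructor <;> linarith
    have h9 : |2 * δ * ‖x‖ ^ 2 / 2| ≤ ε / 4 := by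
      have h10 : ‖x‖ ^ 2 ≤ R₁ ^ 2 := by
        have := norm_nonneg x
        nlinarith
      have h11 : δ * ‖x‖ ^ 2 ≤ δ * R₁ ^ 2 := mul_le_mul_of_nonneg_left h10 hδ.le
      have h12 : 2 * δ * ‖x‖ ^ 2 / 2 = δ * ‖x‖ ^ 2 := by ring
      rw [h12, abs_of_nonneg (by positivity)]
      linarith
    have h13 : mol (φ j) k x + 2 * δ * ‖x‖ ^ 2 / 2 - κ x
        = (mol (φ j) k x - k x) + (k x - κ x) + 2 * δ * ‖x‖ ^ 2 / 2 := by ring
    rw [h13]
    have h14 := abs_add_le ((mol (φ j) k x - k x) + (k x - κ x)) (2 * δ * ‖x‖ ^ 2 / 2)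
    have h15 := abs_add_le (mol (φ j) k x - k x) (k x - κ x)
    linarith
  · intro x hx
    rw [hhess j x]
    have h1 := hMLC' a ha hae₁ (φ j) hj2 x (hx.trans hR₁R)
    rw [hk] at h1
    have e1 : hess (mol (φ j) k) x + (2 * δ) • (1 : Mat m) - ∑ i, B x i
        = hess (mol (φ j) k) x - ∑ i, B x i + (2 * δ) • (1 : Mat m) := by abel
    rw [e1]
    exact h1
  · have e1 : ∀ x, Ph (B x) (hess (fun y => mol (φ j) k y + 2 * δ * ‖y‖ ^ 2 / 2) x - ∑ i, B x i)
        = Ph (B x) (hess (mol (φ j) k) x + (2 * δ) • (1 : Mat m) - ∑ i, B x i) := fun x => by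
      rw [hhess j x]
    rw [integral_congr_ae (Eventually.of_forall e1)]
    exact hj1.le

end Pool.Agent.helper69.SN
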