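import Pool.Agent.helper69.SN.SpecA

/-! Row sn:aHOM: homogeneity. -/

open scoped Pointwise ContDiff
open MeasureTheory Set Filter Topology

set_option linter.unusedVariables false

namespace Pool.Agent.helper69.SN

open Pool.Agent.helper83.SC

theorem aHOM_mD {m : ℕ} (M : Fin m → Mat m) (t : ℝ) :
    mD (fun j => t • M j) = t ^ m * mD M := by
  unfold mD
  have h : ∀ σ : Equiv.Perm (Fin m), (Matrix.of fun i j => (t • M (σ i)) i j).det
      = t ^ m * (Matrix.of fun i j => M (σ i) i j).det := by
    intro σ
    have h1 : (Matrix.of fun i j => (t • M (σ i)) i j)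
        = t • (Matrix.of fun i j => M (σ i) i j) := by
      ext i j
      simp [Matrix.smul_apply]
    rw [h1, Matrix.det_smul, Fintype.card_fin]
  rw [Finset.sum_congr rfl (fun σ _ => h σ), ← Finset.mul_sum]
  ring

theorem aHOM_slot {m n : ℕ} (B : Fin n → Mat m) (T : Finset (Fin n)) (M : Mat m) (t : ℝ) :
    slot (sc (fun _ => t) B) T (t • M) = fun j => t • slot B T M j := by
  funext j
  unfold slot sc
  by_cases h : (j : ℕ) < T.card
  · simp only [h, dif_pos]
  · simp only [h, dif_neg, not_false_eq_true]

theorem aHOM_slotA {m n : ℕ} (B : Fin n → Mat m) (T : Finset (Fin n)) (r : ℕ) (A M : Mat m)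
    (t : ℝ) :
    slotA (sc (fun _ => t) B) T r (t • A) (t • M) = fun j => t • slotA B T r A M j := by
  funext j
  unfold slotA sc
  by_cases h : (j : ℕ) < T.card
  · simp only [h, dif_pos]
  · by_cases h2 : (j : ℕ) < T.card + r
    · simp only [h, h2, dif_neg, not_false_eq_true, if_true]
    · simp only [h, h2, dif_neg, not_false_eq_true, if_false]

theorem aHOM : aHOM_stmt := by
  intro m n B A M t r
  constructor
  · unfold Ph
    rw [Finset.mul_sum]
    refine Finset.sum_congr rfl fun T _ => ?_
    rw [aHOM_slot, aHOM_mD]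
    ring
  · unfold dPh
    rw [Finset.mul_sum]
    refine Finset.sum_congr rfl fun T _ => ?_
    rw [aHOM_slotA, aHOM_mD]
    ring

end Pool.Agent.helper69.SN
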